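import Mathlib
import Pool.Agent.H104Z.OC.Fin

set_option autoImplicit false

/-! Every orientation of every odd cycle is avoidable. -/

namespace Pool.Agent.Results.MP_fac9f6_co.AllOddCyclesAvoidable

/-- A subdigraph of the digraph `D`: a set of vertices and a set of arcs of `D` whose ends lie in
this set of vertices. -/
structure Subdigraph {V : Type} (D : Digraph V) where
  /-- the vertex set -/
  verts : Set V
  /-- the arcs -/
  Adj : V → V → Prop
  adj_sub : ∀ u v, Adj u v → D.Adj u v
  left_mem : ∀ u v, Adj u v → u ∈ verts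
  right_mem : ∀ u v, Adj u v → v ∈ verts

/-- `D'` is `F`-free: there is no injective map from the vertices of `F` to the vertices of `D'`
sending arcs of `F` to arcs of `D'`, that is, `D'` has no subdigraph isomorphic to `F`. -/
def Subdigraph.Free {V W : Type} {D : Digraph V} (D' : Subdigraph D) (F : Digraph W) : Prop :=
  ¬ ∃ f : W → V, Function.Injective f ∧ (∀ x, f x ∈ D'.verts) ∧
    ∀ x y, F.Adj x y → D'.Adj (f x) (f y)

/-- `F` is avoidable: there is a function `dF` such that for every `k`, every finite nonempty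
loopless digraph of minimum out-degree at least `dF k` has a nonempty `F`-free subdigraph of
minimum out-degree at least `k`. -/
def Avoidable {W : Type} (F : Digraph W) : Prop :=
  ∃ dF : ℕ → ℕ, ∀ (k : ℕ) (V : Type) [Finite V] [Nonempty V] (D : Digraph V),
    (∀ v, ¬ D.Adj v v) → (∀ v, dF k ≤ {w | D.Adj v w}.ncard) →
      ∃ D' : Subdigraph D, D'.verts.Nonempty ∧ D'.Free F ∧
        ∀ v ∈ D'.verts, k ≤ {w | D'.Adj v w}.ncard

/-- `F` is an orientation of the simple graph `G`: each edge of `G` is directed in exactly one of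
its two directions, and there are no other arcs. -/
def IsOrientation {W : Type} (F : Digraph W) (G : SimpleGraph W) : Prop :=
  (∀ x y, G.Adj x y ↔ (F.Adj x y ∨ F.Adj y x)) ∧ ∀ x y, F.Adj x y → ¬ F.Adj y x

/-- For every odd `n ≥ 3`, every orientation of the cycle `C_n` is avoidable. -/
theorem result (n : ℕ) (hn : Odd n) (h3 : 3 ≤ n) (F : Digraph (Fin n))
    (hF : IsOrientation F (SimpleGraph.cycleGraph n)) : Avoidable F := by
  choose d hd using Pool.Agent.H104Z.OC.main n hn h3
  refine ⟨d, fun k V _ _ D _ hD => ?_⟩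
  obtain ⟨B, h1, h2, h4⟩ := hd k V D.Adj hD
  refine ⟨⟨Set.univ, B, h1, fun _ _ _ => trivial, fun _ _ _ => trivial⟩, Set.univ_nonempty, ?_,
    fun v _ => h2 v⟩
  rintro ⟨f, -, -, hf⟩
  exact h4 f fun x y hxy => ((hF.1 x y).1 hxy).imp (hf x y) (hf y x)

end Pool.Agent.Results.MP_fac9f6_co.AllOddCyclesAvoidable
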